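import Pool.Agent.Lib.Helper67.CZ.Terras

set_option autoImplicit false

/-!
Counting the elements of a trajectory of the 3x+1 map that is not eventually periodic.
-/

namespace Pool.Agent.Helper67.CZ

open Filter

/-- If an orbit repeats, it has finite range. -/
theorem finite_range_of_not_injective {α : Type*} (f : α → α) (x : α)
    (h : ¬ Function.Injective (fun k : ℕ => f^[k] x)) :
    (Set.range (fun k : ℕ => f^[k] x)).Finite := by
  rw [Function.Injective] at h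
  push Not at h
  obtain ⟨a, b, hab, hne⟩ := h
  obtain ⟨i, j, hij, he⟩ : ∃ i j : ℕ, i < j ∧ f^[i] x = f^[j] x := by
    rcases lt_or_gt_of_ne hne with h | h
    · exact ⟨a, b, h, hab⟩
    · exact ⟨b, a, h, hab.symm⟩
  have key : ∀ k : ℕ, ∃ k' < j, f^[k] x = f^[k'] x := by
    intro k
    induction k using Nat.strong_induction_on with
    | _ k ih =>
      by_cases hk : k < j
      · exact ⟨k, hk, rfl⟩
      · push Not at hk
        have h1 : f^[k] x = f^[k - j + i] x := by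
          have e1 : k = (k - j) + j := by omega
          conv_lhs => rw [e1, Function.iterate_add_apply, ← he]
          rw [Function.iterate_add_apply]
        obtain ⟨k', hk', h2⟩ := ih (k - j + i) (by omega)
        exact ⟨k', hk', h1.trans h2⟩
  apply ((Set.finite_Iio j).image (fun k => f^[k] x)).subset
  rintro _ ⟨k, rfl⟩
  obtain ⟨k', hk', h2⟩ := key k
  exact ⟨k', hk', h2.symm⟩

/-- The times at which the trajectory is of size at most `X`. -/
def vis (n₀ : ℤ) (X : ℝ) : Set ℕ := {k | |((T^[k] n₀ : ℤ) : ℝ)| ≤ X}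

theorem vis_finite {n₀ : ℤ} (hinj : Function.Injective (fun k : ℕ => T^[k] n₀)) (X : ℝ) :
    (vis n₀ X).Finite := by
  have h1 : (Set.Icc (-⌈X⌉) ⌈X⌉ : Set ℤ).Finite := Set.finite_Icc _ _
  apply (h1.preimage (f := fun k : ℕ => T^[k] n₀) hinj.injOn).subset
  intro k hk
  have hk' : |((T^[k] n₀ : ℤ) : ℝ)| ≤ X := hk
  have h2 : ((|T^[k] n₀| : ℤ) : ℝ) ≤ (⌈X⌉ : ℝ) := by
    push_cast
    exact hk'.trans (Int.le_ceil X)
  have h3 : |T^[k] n₀| ≤ ⌈X⌉ := by exact_mod_cast h2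
  exact abs_le.mp h3

theorem step_bound {θ : ℝ} (h1 : 1 / 2 ≤ θ) (h2 : θ < 1) {n₀ : ℤ}
    (hinj : Function.Injective (fun k : ℕ => T^[k] n₀)) (m : ℕ)
    (hm : 2 * (3 : ℝ) ^ (θ * (m + 1 : ℕ)) ≤ 2 ^ m) :
    ((vis n₀ (2 ^ (m + 1))).ncard : ℝ) ≤
      3 * Real.exp ((m + 1 : ℕ) * Real.binEntropy θ) + ((vis n₀ (2 ^ m)).ncard : ℝ) := by
  classical
  set Bad : Set ℤ := {n : ℤ | |n| ≤ 2 ^ (m + 1) ∧ θ * (m + 1 : ℕ) ≤ ((ps n (m + 1)).card : ℝ)}
    with hBad
  have hBfin : Bad.Finite := by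
    apply (Set.finite_Icc (-(2 : ℤ) ^ (m + 1)) (2 ^ (m + 1))).subset
    rintro n ⟨hn, _⟩
    exact abs_le.mp hn
  have hsub : vis n₀ (2 ^ (m + 1)) ⊆ ((fun k : ℕ => T^[k] n₀) ⁻¹' Bad) ∪
      ((fun k => k + (m + 1)) ⁻¹' (vis n₀ (2 ^ m))) := by
    intro k hk
    have hk' : |((T^[k] n₀ : ℤ) : ℝ)| ≤ 2 ^ (m + 1) := hk
    by_cases hb : θ * (m + 1 : ℕ) ≤ ((ps (T^[k] n₀) (m + 1)).card : ℝ)
    · left
      refine ⟨?_, hb⟩
      have : ((|T^[k] n₀| : ℤ) : ℝ) ≤ ((2 ^ (m + 1) : ℤ) : ℝ) := by push_cast; exact hk'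
      exact_mod_cast this
    · right
      push Not at hb
      have hg := growth (T^[k] n₀) (m + 1)
      have e1 : T^[m + 1] (T^[k] n₀) = T^[k + (m + 1)] n₀ := by
        rw [← Function.iterate_add_apply T (m + 1) k n₀, add_comm (m + 1) k]
      rw [e1] at hg
      change |((T^[k + (m + 1)] n₀ : ℤ) : ℝ)| ≤ 2 ^ m
      set s := (ps (T^[k] n₀) (m + 1)).card with hs
      have h3 : (3 : ℝ) ^ s ≤ 3 ^ (θ * (m + 1 : ℕ)) := by
        rw [← Real.rpow_natCast]
        exact Real.rpow_le_rpow_of_exponent_le (by norm_num) hb.le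
      have h4 : (3 / 2 : ℝ) ^ s ≤ 3 ^ s := by
        apply pow_le_pow_left₀ (by norm_num) (by norm_num)
      have h5 : (3 : ℝ) ^ s * |((T^[k] n₀ : ℤ) : ℝ)| / 2 ^ (m + 1) ≤ 3 ^ s := by
        rw [div_le_iff₀ (by positivity)]
        exact mul_le_mul_of_nonneg_left hk' (by positivity)
      linarith
  have hf1 : ((fun k : ℕ => T^[k] n₀) ⁻¹' Bad).Finite := hBfin.preimage hinj.injOn
  have hf2 : ((fun k => k + (m + 1)) ⁻¹' (vis n₀ (2 ^ m))).Finite :=
    (vis_finite hinj _).preimage (fun a _ b _ h => by simpa using h)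
  have h3 := (Set.ncard_le_ncard hsub (hf1.union hf2)).trans (Set.ncard_union_le _ _)
  have h4 : ((fun k : ℕ => T^[k] n₀) ⁻¹' Bad).ncard ≤ Bad.ncard :=
    Set.ncard_le_ncard_of_injOn _ (fun k hk => hk) hinj.injOn hBfin
  have h5 : ((fun k => k + (m + 1)) ⁻¹' (vis n₀ (2 ^ m))).ncard ≤ (vis n₀ (2 ^ m)).ncard :=
    Set.ncard_le_ncard_of_injOn (fun k => k + (m + 1)) (fun k hk => hk)
      (fun a _ b _ h => by simpa using h) (vis_finite hinj _)
  have h6 := bad_count h1 h2 (m + 1)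
  rw [← hBad] at h6
  have h7 : ((vis n₀ (2 ^ (m + 1))).ncard : ℝ) ≤ (Bad.ncard : ℝ) + ((vis n₀ (2 ^ m)).ncard : ℝ) := by
    exact_mod_cast h3.trans (Nat.add_le_add h4 h5)
  linarith

theorem dyadic_bound {θ : ℝ} (h1 : 1 / 2 ≤ θ) (h2 : θ < Real.log 2 / Real.log 3) {n₀ : ℤ}
    (hinj : Function.Injective (fun k : ℕ => T^[k] n₀)) :
    ∃ C : ℝ, 0 < C ∧ ∀ m : ℕ,
      ((vis n₀ (2 ^ m)).ncard : ℝ) ≤ C * Real.exp (m * Real.binEntropy θ) := by
  have hl2 : 0 < Real.log 2 := Real.log_pos (by norm_num)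
  have hl3 : 0 < Real.log 3 := Real.log_pos (by norm_num)
  have hl23 : Real.log 2 < Real.log 3 := Real.log_lt_log (by norm_num) (by norm_num)
  have hθ1 : θ < 1 := h2.trans ((div_lt_one hl3).mpr hl23)
  have hθ3 : θ * Real.log 3 < Real.log 2 := by rwa [lt_div_iff₀ hl3] at h2
  have hH : 0 < Real.binEntropy θ := Real.binEntropy_pos (by linarith) hθ1
  set r : ℝ := Real.exp (Real.binEntropy θ) with hr
  have hr1 : 1 < r := by rw [hr]; exact Real.one_lt_exp_iff.mpr hH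
  -- the threshold
  obtain ⟨m₀, hm₀⟩ : ∃ m₀ : ℕ, ∀ m : ℕ, m₀ ≤ m → 2 * (3 : ℝ) ^ (θ * (m + 1 : ℕ)) ≤ 2 ^ m := by
    set δ : ℝ := Real.log 2 - θ * Real.log 3 with hδ
    have hδ0 : 0 < δ := by rw [hδ]; linarith
    obtain ⟨m₀, hm₀⟩ := exists_nat_ge ((Real.log 2 + θ * Real.log 3) / δ)
    refine ⟨m₀, fun m hm => ?_⟩
    have h3 : (Real.log 2 + θ * Real.log 3) / δ ≤ m := hm₀.trans (by exact_mod_cast hm)
    rw [div_le_iff₀ hδ0] at h3
    have h4 : 2 * (3 : ℝ) ^ (θ * (m + 1 : ℕ)) =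
        Real.exp (Real.log 2 + θ * (m + 1 : ℕ) * Real.log 3) := by
      rw [Real.exp_add, Real.exp_log (by norm_num), Real.rpow_def_of_pos (by norm_num)]
      ring_nf
    have h5 : (2 : ℝ) ^ m = Real.exp (m * Real.log 2) := by
      rw [Real.exp_nat_mul, Real.exp_log (by norm_num)]
    rw [h4, h5]
    apply Real.exp_le_exp.mpr
    push_cast
    rw [hδ] at h3
    nlinarith
  set C : ℝ := ((vis n₀ (2 ^ m₀)).ncard : ℝ) + 3 * r / (r - 1) with hC
  have hr0 : 0 < r - 1 := by linarith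
  have hCpos : 0 < C := by
    rw [hC]
    have : 0 < 3 * r / (r - 1) := by positivity
    have h3 : (0 : ℝ) ≤ ((vis n₀ (2 ^ m₀)).ncard : ℝ) := Nat.cast_nonneg _
    linarith
  refine ⟨C, hCpos, ?_⟩
  have hexp : ∀ m : ℕ, Real.exp (m * Real.binEntropy θ) = r ^ m := by
    intro m; rw [hr, ← Real.exp_nat_mul]
  have hmono : ∀ m : ℕ, m ≤ m₀ → ((vis n₀ (2 ^ m)).ncard : ℝ) ≤ C * r ^ m := by
    intro m hm
    have h3 : (vis n₀ (2 ^ m)).ncard ≤ (vis n₀ (2 ^ m₀)).ncard := by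
      apply Set.ncard_le_ncard _ (vis_finite hinj _)
      intro k hk
      exact le_trans (show |((T^[k] n₀ : ℤ) : ℝ)| ≤ 2 ^ m from hk)
        (pow_le_pow_right₀ (by norm_num) hm)
    have h4 : ((vis n₀ (2 ^ m)).ncard : ℝ) ≤ ((vis n₀ (2 ^ m₀)).ncard : ℝ) := by exact_mod_cast h3
    have h5 : (1 : ℝ) ≤ r ^ m := one_le_pow₀ hr1.le
    have h6 : 0 < 3 * r / (r - 1) := by positivity
    have h7 : ((vis n₀ (2 ^ m₀)).ncard : ℝ) ≤ C := by rw [hC]; linarith
    calc ((vis n₀ (2 ^ m)).ncard : ℝ) ≤ C := h4.trans h7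
      _ = C * 1 := by ring
      _ ≤ C * r ^ m := mul_le_mul_of_nonneg_left h5 hCpos.le
  intro m
  rw [hexp]
  induction m with
  | zero => exact hmono 0 (Nat.zero_le _)
  | succ m ih =>
    by_cases hm : m + 1 ≤ m₀
    · exact hmono _ hm
    · have hm' : m₀ ≤ m := by omega
      have h3 := step_bound h1 hθ1 hinj m (hm₀ m hm')
      rw [hexp] at h3
      have h4 : 3 * r ≤ C * (r - 1) := by
        have h5 : 3 * r / (r - 1) ≤ C := by
          rw [hC]
          have : (0 : ℝ) ≤ ((vis n₀ (2 ^ m₀)).ncard : ℝ) := Nat.cast_nonneg _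
          linarith
        rwa [div_le_iff₀ hr0] at h5
      have h5 : (0 : ℝ) < r ^ m := by positivity
      calc ((vis n₀ (2 ^ (m + 1))).ncard : ℝ) ≤ 3 * r ^ (m + 1) + C * r ^ m := by linarith
        _ = (3 * r) * r ^ m + C * r ^ m := by rw [pow_succ]; ring
        _ ≤ (C * (r - 1)) * r ^ m + C * r ^ m := by
            have := mul_le_mul_of_nonneg_right h4 h5.le
            linarith
        _ = C * r ^ (m + 1) := by rw [pow_succ]; ring

/-- The critical exponent `H(log 2 / log 3) / log 2 = 0.9499...`. -/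
noncomputable def critExp : ℝ := Real.binEntropy (Real.log 2 / Real.log 3) / Real.log 2

theorem critExp_lt_one : critExp < 1 := by
  have hl2 : 0 < Real.log 2 := Real.log_pos (by norm_num)
  have hl3 : 0 < Real.log 3 := Real.log_pos (by norm_num)
  rw [critExp, div_lt_one hl2, Real.binEntropy_lt_log_two]
  intro h
  rw [div_eq_iff hl3.ne'] at h
  have h1 : Real.log 4 = 2 * Real.log 2 := by
    rw [show (4 : ℝ) = 2 ^ 2 by norm_num, Real.log_pow]; norm_num
  have h2 : Real.log 3 < Real.log 4 := Real.log_lt_log (by norm_num) (by norm_num)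
  linarith

theorem critExp_pos : 0 < critExp := by
  have hl2 : 0 < Real.log 2 := Real.log_pos (by norm_num)
  have hl3 : 0 < Real.log 3 := Real.log_pos (by norm_num)
  apply div_pos _ hl2
  apply Real.binEntropy_pos (by positivity)
  rw [div_lt_one hl3]
  exact Real.log_lt_log (by norm_num) (by norm_num)

/-- Counting bound: a trajectory of `T` on the integers that is not eventually periodic has
`O(x ^ α)` elements of size at most `x`, for every `α > H(log 2 / log 3) / log 2`. -/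
theorem count_bound {n₀ : ℤ} (hinj : Function.Injective (fun k : ℕ => T^[k] n₀))
    {α : ℝ} (hα : critExp < α) :
    ∃ C : ℝ, 0 < C ∧ ∀ x : ℝ, 1 ≤ x → ((vis n₀ x).ncard : ℝ) ≤ C * x ^ α := by
  have hl2 : 0 < Real.log 2 := Real.log_pos (by norm_num)
  have hl3 : 0 < Real.log 3 := Real.log_pos (by norm_num)
  set μ : ℝ := Real.log 2 / Real.log 3 with hμ
  have hμ2 : 1 / 2 < μ := by
    rw [hμ, lt_div_iff₀ hl3]
    have h1 : Real.log 4 = 2 * Real.log 2 := by
      rw [show (4 : ℝ) = 2 ^ 2 by norm_num, Real.log_pow]; norm_num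
    have h2 : Real.log 3 < Real.log 4 := Real.log_lt_log (by norm_num) (by norm_num)
    linarith
  -- choose `θ`
  have hcont : ContinuousAt Real.binEntropy μ := Real.binEntropy_continuous.continuousAt
  have hlt : Real.binEntropy μ < α * Real.log 2 := by
    have : critExp = Real.binEntropy μ / Real.log 2 := rfl
    rw [this, div_lt_iff₀ hl2] at hα
    exact hα
  obtain ⟨θ, hθ1, hθ2, hθ3⟩ : ∃ θ : ℝ, 1 / 2 ≤ θ ∧ θ < μ ∧ Real.binEntropy θ < α * Real.log 2 := by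
    have h1 : ∀ᶠ θ in nhds μ, Real.binEntropy θ < α * Real.log 2 := hcont.eventually_lt_const hlt
    have h2 : ∀ᶠ θ in nhds μ, 1 / 2 < θ := eventually_gt_nhds hμ2
    have h3 : ∀ᶠ θ in nhdsWithin μ (Set.Iio μ), θ < μ := eventually_nhdsWithin_of_forall
      (fun x hx => hx)
    obtain ⟨θ, ha, hb⟩ := (((h1.and h2).filter_mono nhdsWithin_le_nhds).and h3).exists
    exact ⟨θ, ha.2.le, hb, ha.1⟩
  obtain ⟨C, hC, hbound⟩ := dyadic_bound hθ1 hθ2 hinj
  refine ⟨C * 2 ^ α, by positivity, ?_⟩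
  intro x hx
  obtain ⟨n, hn1, hn2⟩ := exists_nat_pow_near hx (by norm_num : (1 : ℝ) < 2)
  have h1 : (vis n₀ x).ncard ≤ (vis n₀ (2 ^ (n + 1))).ncard := by
    apply Set.ncard_le_ncard _ (vis_finite hinj _)
    intro k hk
    exact le_trans (show |((T^[k] n₀ : ℤ) : ℝ)| ≤ x from hk) hn2.le
  have h2 : ((vis n₀ x).ncard : ℝ) ≤ ((vis n₀ (2 ^ (n + 1))).ncard : ℝ) := by exact_mod_cast h1
  refine h2.trans ((hbound (n + 1)).trans ?_)
  rw [mul_assoc]
  apply mul_le_mul_of_nonneg_left _ hC.le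
  have h3 : Real.exp ((n + 1 : ℕ) * Real.binEntropy θ) ≤ ((2 : ℝ) ^ (n + 1)) ^ α := by
    rw [← Real.rpow_natCast, ← Real.rpow_mul (by norm_num), Real.rpow_def_of_pos (by norm_num)]
    apply Real.exp_le_exp.mpr
    have h4 : (0 : ℝ) ≤ ((n + 1 : ℕ) : ℝ) := Nat.cast_nonneg _
    nlinarith
  have hαpos : 0 < α := critExp_pos.trans hα
  refine h3.trans ?_
  rw [← Real.mul_rpow (by norm_num) (by linarith)]
  apply Real.rpow_le_rpow (by positivity) _ hαpos.le
  rw [pow_succ]; linarith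

end Pool.Agent.Helper67.CZ
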