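import Pool.Agent.Lib.Helper67.CZ.Orbit

set_option autoImplicit false

/-!
Uniform estimates for repetition-free segments of trajectories of the 3x+1 map on the integers.
-/

namespace Pool.Agent.Helper67.CZ

open Filter

/-- The times `k < K` at which the trajectory is of size at most `X`. -/
def seg (n₀ : ℤ) (K : ℕ) (X : ℝ) : Set ℕ := {k | k < K ∧ |((T^[k] n₀ : ℤ) : ℝ)| ≤ X}

theorem seg_finite (n₀ : ℤ) (K : ℕ) (X : ℝ) : (seg n₀ K X).Finite :=
  (Set.finite_Iio K).subset (fun _ hk => hk.1)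

theorem seg_step {θ : ℝ} (h1 : 1 / 2 ≤ θ) (h2 : θ < 1) {n₀ : ℤ} {K : ℕ}
    (hinj : Set.InjOn (fun k : ℕ => T^[k] n₀) (Set.Iio K)) (m : ℕ)
    (hm : 2 * (3 : ℝ) ^ (θ * (m + 1 : ℕ)) ≤ 2 ^ m) :
    ((seg n₀ K (2 ^ (m + 1))).ncard : ℝ) ≤
      3 * Real.exp ((m + 1 : ℕ) * Real.binEntropy θ) + (m + 1 : ℕ) +
        ((seg n₀ K (2 ^ m)).ncard : ℝ) := by
  classical
  set Bad : Set ℤ := {n : ℤ | |n| ≤ 2 ^ (m + 1) ∧ θ * (m + 1 : ℕ) ≤ ((ps n (m + 1)).card : ℝ)}
    with hBad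
  have hBfin : Bad.Finite := by
    apply (Set.finite_Icc (-(2 : ℤ) ^ (m + 1)) (2 ^ (m + 1))).subset
    rintro n ⟨hn, _⟩
    exact abs_le.mp hn
  set A1 : Set ℕ := {k | k < K ∧ T^[k] n₀ ∈ Bad} with hA1
  set A2 : Set ℕ := {k | k < K ∧ K ≤ k + (m + 1)} with hA2
  set A3 : Set ℕ := (fun k => k + (m + 1)) ⁻¹' (seg n₀ K (2 ^ m)) with hA3
  have hsub : seg n₀ K (2 ^ (m + 1)) ⊆ A1 ∪ (A2 ∪ A3) := by
    rintro k ⟨hkK, hk'⟩
    by_cases hb : θ * (m + 1 : ℕ) ≤ ((ps (T^[k] n₀) (m + 1)).card : ℝ)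
    · left
      refine ⟨hkK, ?_, hb⟩
      have : ((|T^[k] n₀| : ℤ) : ℝ) ≤ ((2 ^ (m + 1) : ℤ) : ℝ) := by push_cast; exact hk'
      exact_mod_cast this
    · right
      by_cases hend : K ≤ k + (m + 1)
      · left; exact ⟨hkK, hend⟩
      · right
        push Not at hb hend
        refine ⟨hend, ?_⟩
        have hg := growth (T^[k] n₀) (m + 1)
        have e1 : T^[m + 1] (T^[k] n₀) = T^[k + (m + 1)] n₀ := by
          rw [← Function.iterate_add_apply T (m + 1) k n₀, add_comm (m + 1) k]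
        rw [e1] at hg
        set s := (ps (T^[k] n₀) (m + 1)).card with hs
        have h3 : (3 : ℝ) ^ s ≤ 3 ^ (θ * (m + 1 : ℕ)) := by
          rw [← Real.rpow_natCast]
          exact Real.rpow_le_rpow_of_exponent_le (by norm_num) hb.le
        have h4 : (3 / 2 : ℝ) ^ s ≤ 3 ^ s := by
          apply pow_le_pow_left₀ (by norm_num) (by norm_num)
        have h5 : (3 : ℝ) ^ s * |((T^[k] n₀ : ℤ) : ℝ)| / 2 ^ (m + 1) ≤ 3 ^ s := by
          rw [div_le_iff₀ (by positivity)]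
          exact mul_le_mul_of_nonneg_left hk' (by positivity)
        linarith
  have hf1 : A1.Finite := (Set.finite_Iio K).subset (fun _ hk => hk.1)
  have hf2 : A2.Finite := (Set.finite_Iio K).subset (fun _ hk => hk.1)
  have hf3 : A3.Finite := (seg_finite _ _ _).preimage (fun a _ b _ h => by simpa using h)
  have h3 := (Set.ncard_le_ncard hsub (hf1.union (hf2.union hf3))).trans (Set.ncard_union_le _ _)
  have h3' := Set.ncard_union_le A2 A3
  have h4 : A1.ncard ≤ Bad.ncard :=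
    Set.ncard_le_ncard_of_injOn (fun k : ℕ => T^[k] n₀) (fun k hk => hk.2)
      (hinj.mono (fun k hk => hk.1)) hBfin
  have h5 : A3.ncard ≤ (seg n₀ K (2 ^ m)).ncard :=
    Set.ncard_le_ncard_of_injOn (fun k => k + (m + 1)) (fun k hk => hk)
      (fun a _ b _ h => by simpa using h) (seg_finite _ _ _)
  have h6 : A2.ncard ≤ m + 1 := by
    have hsub2 : A2 ⊆ ((Finset.Ico (K - (m + 1)) K : Finset ℕ) : Set ℕ) := by
      rintro k ⟨hk1, hk2⟩
      simp only [Finset.coe_Ico, Set.mem_Ico]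
      omega
    refine (Set.ncard_le_ncard hsub2 (Finset.finite_toSet _)).trans ?_
    rw [Set.ncard_coe_finset, Nat.card_Ico]
    omega
  have h7 := bad_count h1 h2 (m + 1)
  rw [← hBad] at h7
  have h8 : ((seg n₀ K (2 ^ (m + 1))).ncard : ℝ) ≤
      (Bad.ncard : ℝ) + ((m + 1 : ℕ) : ℝ) + ((seg n₀ K (2 ^ m)).ncard : ℝ) := by
    have : (seg n₀ K (2 ^ (m + 1))).ncard ≤ Bad.ncard + (m + 1) + (seg n₀ K (2 ^ m)).ncard := by
      omega
    exact_mod_cast this
  linarith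

theorem seg_dyadic {θ : ℝ} (h1 : 1 / 2 ≤ θ) (h2 : θ < Real.log 2 / Real.log 3) :
    ∃ C : ℝ, 0 < C ∧ ∀ (n₀ : ℤ) (K : ℕ), Set.InjOn (fun k : ℕ => T^[k] n₀) (Set.Iio K) →
      ∀ m : ℕ, ((seg n₀ K (2 ^ m)).ncard : ℝ) ≤ C * Real.exp (m * Real.binEntropy θ) := by
  classical
  have hl2 : 0 < Real.log 2 := Real.log_pos (by norm_num)
  have hl3 : 0 < Real.log 3 := Real.log_pos (by norm_num)
  have hl23 : Real.log 2 < Real.log 3 := Real.log_lt_log (by norm_num) (by norm_num)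
  have hθ1 : θ < 1 := h2.trans ((div_lt_one hl3).mpr hl23)
  have hθ3 : θ * Real.log 3 < Real.log 2 := by rwa [lt_div_iff₀ hl3] at h2
  have hH : 0 < Real.binEntropy θ := Real.binEntropy_pos (by linarith) hθ1
  set h := Real.binEntropy θ with hh
  set r : ℝ := Real.exp h with hr
  have hr1 : 1 < r := by rw [hr]; exact Real.one_lt_exp_iff.mpr hH
  obtain ⟨m₀, hm₀⟩ : ∃ m₀ : ℕ, ∀ m : ℕ, m₀ ≤ m → 2 * (3 : ℝ) ^ (θ * (m + 1 : ℕ)) ≤ 2 ^ m := by
    set δ : ℝ := Real.log 2 - θ * Real.log 3 with hδ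
    have hδ0 : 0 < δ := by rw [hδ]; linarith
    obtain ⟨m₀, hm₀⟩ := exists_nat_ge ((Real.log 2 + θ * Real.log 3) / δ)
    refine ⟨m₀, fun m hm => ?_⟩
    have h3 : (Real.log 2 + θ * Real.log 3) / δ ≤ m := hm₀.trans (by exact_mod_cast hm)
    rw [div_le_iff₀ hδ0] at h3
    have h4 : 2 * (3 : ℝ) ^ (θ * (m + 1 : ℕ)) =
        Real.exp (Real.log 2 + θ * (m + 1 : ℕ) * Real.log 3) := by
      rw [Real.exp_add, Real.exp_log (by norm_num), Real.rpow_def_of_pos (by norm_num)]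
      ring_nf
    have h5 : (2 : ℝ) ^ m = Real.exp (m * Real.log 2) := by
      rw [Real.exp_nat_mul, Real.exp_log (by norm_num)]
    rw [h4, h5]
    apply Real.exp_le_exp.mpr
    push_cast
    rw [hδ] at h3
    nlinarith
  set c : ℝ := 3 + 1 / h with hc
  have hcpos : 0 < c := by positivity
  set C : ℝ := 3 * 2 ^ m₀ + c * r / (r - 1) with hC
  have hr0 : 0 < r - 1 := by linarith
  have hCpos : 0 < C := by positivity
  refine ⟨C, hCpos, ?_⟩
  intro n₀ K hinj
  have hexp : ∀ m : ℕ, Real.exp (m * h) = r ^ m := by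
    intro m; rw [hr, ← Real.exp_nat_mul]
  have hmono : ∀ m : ℕ, m ≤ m₀ → ((seg n₀ K (2 ^ m)).ncard : ℝ) ≤ C * r ^ m := by
    intro m hm
    have h3 : (seg n₀ K (2 ^ m)).ncard ≤ ((Finset.Icc (-(2 : ℤ) ^ m₀) (2 ^ m₀) : Finset ℤ) :
        Set ℤ).ncard := by
      refine Set.ncard_le_ncard_of_injOn (fun k : ℕ => T^[k] n₀) ?_
        (hinj.mono (fun k hk => hk.1)) (Finset.finite_toSet _)
      rintro k ⟨_, hk⟩
      have h4 : |((T^[k] n₀ : ℤ) : ℝ)| ≤ 2 ^ m₀ :=
        hk.trans (pow_le_pow_right₀ (by norm_num) hm)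
      have h5 : ((|T^[k] n₀| : ℤ) : ℝ) ≤ ((2 ^ m₀ : ℤ) : ℝ) := by push_cast; exact h4
      have h6 : |T^[k] n₀| ≤ 2 ^ m₀ := by exact_mod_cast h5
      rw [Finset.coe_Icc]
      exact abs_le.mp h6
    rw [Set.ncard_coe_finset, Int.card_Icc] at h3
    have hp : (0 : ℤ) < 2 ^ m₀ := by positivity
    have h4 : ((seg n₀ K (2 ^ m)).ncard : ℤ) ≤ 3 * 2 ^ m₀ := by
      have h5 : ((((2 : ℤ) ^ m₀ + 1 - -(2 : ℤ) ^ m₀).toNat : ℕ) : ℤ) = 2 * 2 ^ m₀ + 1 := by
        rw [Int.toNat_of_nonneg (by linarith)]; ring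
      have h6 : ((seg n₀ K (2 ^ m)).ncard : ℤ) ≤
          ((((2 : ℤ) ^ m₀ + 1 - -(2 : ℤ) ^ m₀).toNat : ℕ) : ℤ) := by exact_mod_cast h3
      linarith
    have h5 : ((seg n₀ K (2 ^ m)).ncard : ℝ) ≤ 3 * 2 ^ m₀ := by exact_mod_cast h4
    have h6 : (1 : ℝ) ≤ r ^ m := one_le_pow₀ hr1.le
    have h7 : 0 < c * r / (r - 1) := by positivity
    calc ((seg n₀ K (2 ^ m)).ncard : ℝ) ≤ C := by rw [hC]; linarith
      _ = C * 1 := by ring
      _ ≤ C * r ^ m := mul_le_mul_of_nonneg_left h6 hCpos.le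
  intro m
  rw [hexp]
  induction m with
  | zero => exact hmono 0 (Nat.zero_le _)
  | succ m ih =>
    by_cases hm : m + 1 ≤ m₀
    · exact hmono _ hm
    · have hm' : m₀ ≤ m := by omega
      have h3 := seg_step h1 hθ1 hinj m (hm₀ m hm')
      rw [hexp] at h3
      have h3' : ((m + 1 : ℕ) : ℝ) ≤ (1 / h) * r ^ (m + 1) := by
        have h4 := Real.add_one_le_exp (((m + 1 : ℕ) : ℝ) * h)
        rw [hexp] at h4
        rw [one_div, ← div_eq_inv_mul, le_div_iff₀ hH]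
        linarith
      have h4 : c * r ≤ C * (r - 1) := by
        have h5 : c * r / (r - 1) ≤ C := by
          rw [hC]
          have : (0 : ℝ) < 3 * 2 ^ m₀ := by positivity
          linarith
        rwa [div_le_iff₀ hr0] at h5
      have h5 : (0 : ℝ) < r ^ m := by positivity
      calc ((seg n₀ K (2 ^ (m + 1))).ncard : ℝ) ≤ c * r ^ (m + 1) + C * r ^ m := by
            rw [hc]
            have : (3 + 1 / h) * r ^ (m + 1) = 3 * r ^ (m + 1) + (1 / h) * r ^ (m + 1) := by ring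
            linarith
        _ = (c * r) * r ^ m + C * r ^ m := by rw [pow_succ]; ring
        _ ≤ (C * (r - 1)) * r ^ m + C * r ^ m := by
            have := mul_le_mul_of_nonneg_right h4 h5.le
            linarith
        _ = C * r ^ (m + 1) := by rw [pow_succ]; ring

/-- A repetition-free segment of a trajectory has at most `C x ^ α` elements of size at most `x`,
with `C` depending only on `α > H(log 2 / log 3) / log 2`. -/
theorem seg_count {α : ℝ} (hα : critExp < α) :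
    ∃ C : ℝ, 0 < C ∧ ∀ (n₀ : ℤ) (K : ℕ), Set.InjOn (fun k : ℕ => T^[k] n₀) (Set.Iio K) →
      ∀ x : ℝ, 1 ≤ x → ((seg n₀ K x).ncard : ℝ) ≤ C * x ^ α := by
  have hl2 : 0 < Real.log 2 := Real.log_pos (by norm_num)
  have hl3 : 0 < Real.log 3 := Real.log_pos (by norm_num)
  set μ : ℝ := Real.log 2 / Real.log 3 with hμ
  have hμ2 : 1 / 2 < μ := by
    rw [hμ, lt_div_iff₀ hl3]
    have h1 : Real.log 4 = 2 * Real.log 2 := by
      rw [show (4 : ℝ) = 2 ^ 2 by norm_num, Real.log_pow]; norm_num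
    have h2 : Real.log 3 < Real.log 4 := Real.log_lt_log (by norm_num) (by norm_num)
    linarith
  have hcont : ContinuousAt Real.binEntropy μ := Real.binEntropy_continuous.continuousAt
  have hlt : Real.binEntropy μ < α * Real.log 2 := by
    have : critExp = Real.binEntropy μ / Real.log 2 := rfl
    rw [this, div_lt_iff₀ hl2] at hα
    exact hα
  obtain ⟨θ, hθ1, hθ2, hθ3⟩ : ∃ θ : ℝ, 1 / 2 ≤ θ ∧ θ < μ ∧ Real.binEntropy θ < α * Real.log 2 := by
    have h1 : ∀ᶠ θ in nhds μ, Real.binEntropy θ < α * Real.log 2 := hcont.eventually_lt_const hlt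
    have h2 : ∀ᶠ θ in nhds μ, 1 / 2 < θ := eventually_gt_nhds hμ2
    have h3 : ∀ᶠ θ in nhdsWithin μ (Set.Iio μ), θ < μ := eventually_nhdsWithin_of_forall
      (fun x hx => hx)
    obtain ⟨θ, ha, hb⟩ := (((h1.and h2).filter_mono nhdsWithin_le_nhds).and h3).exists
    exact ⟨θ, ha.2.le, hb, ha.1⟩
  obtain ⟨C, hC, hbound⟩ := seg_dyadic hθ1 hθ2
  refine ⟨C * 2 ^ α, by positivity, ?_⟩
  intro n₀ K hinj x hx
  obtain ⟨n, hn1, hn2⟩ := exists_nat_pow_near hx (by norm_num : (1 : ℝ) < 2)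
  have h1 : (seg n₀ K x).ncard ≤ (seg n₀ K (2 ^ (n + 1))).ncard := by
    apply Set.ncard_le_ncard _ (seg_finite _ _ _)
    rintro k ⟨hk1, hk2⟩
    exact ⟨hk1, hk2.trans hn2.le⟩
  have h2 : ((seg n₀ K x).ncard : ℝ) ≤ ((seg n₀ K (2 ^ (n + 1))).ncard : ℝ) := by exact_mod_cast h1
  refine h2.trans ((hbound n₀ K hinj (n + 1)).trans ?_)
  rw [mul_assoc]
  apply mul_le_mul_of_nonneg_left _ hC.le
  have h3 : Real.exp ((n + 1 : ℕ) * Real.binEntropy θ) ≤ ((2 : ℝ) ^ (n + 1)) ^ α := by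
    rw [← Real.rpow_natCast, ← Real.rpow_mul (by norm_num), Real.rpow_def_of_pos (by norm_num)]
    apply Real.exp_le_exp.mpr
    have h4 : (0 : ℝ) ≤ ((n + 1 : ℕ) : ℝ) := Nat.cast_nonneg _
    nlinarith
  have hαpos : 0 < α := critExp_pos.trans hα
  refine h3.trans ?_
  rw [← Real.mul_rpow (by norm_num) (by linarith)]
  apply Real.rpow_le_rpow (by positivity) _ hαpos.le
  rw [pow_succ]; linarith

/-- The sum of reciprocals along a repetition-free segment all of whose elements are of size at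
least `N` is at most `C N ^ (-γ)`. -/
theorem seg_recip {γ : ℝ} (hγ : γ < 1 - critExp) :
    ∃ C : ℝ, 0 < C ∧ ∀ (n₀ : ℤ) (K : ℕ), Set.InjOn (fun k : ℕ => T^[k] n₀) (Set.Iio K) →
      ∀ N : ℝ, 1 ≤ N → (∀ k < K, N ≤ |((T^[k] n₀ : ℤ) : ℝ)|) →
      ∑ k ∈ Finset.range K, 1 / |((T^[k] n₀ : ℤ) : ℝ)| ≤ C * N ^ (-γ) := by
  classical
  -- a positive exponent between `γ` and `1 - critExp`
  set γ' : ℝ := max γ ((1 - critExp) / 2) with hγ'
  have hce := critExp_lt_one
  have hγ1 : γ' < 1 - critExp := max_lt hγ (by linarith)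
  have hγ2 : 0 < γ' := lt_of_lt_of_le (by linarith) (le_max_right _ _)
  have hγ3 : γ ≤ γ' := le_max_left _ _
  set α : ℝ := 1 - γ' with hα
  have hα1 : critExp < α := by rw [hα]; linarith
  have hα0 : 0 < α := critExp_pos.trans hα1
  obtain ⟨C, hC, hb⟩ := seg_count hα1
  set q : ℝ := (2 : ℝ) ^ (-γ') with hq
  have hq0 : 0 < q := by positivity
  have hq1 : q < 1 := Real.rpow_lt_one_of_one_lt_of_neg (by norm_num) (by linarith)
  refine ⟨C * 2 ^ α * (1 - q)⁻¹ * 2 ^ γ', by have : 0 < 1 - q := by linarith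
                                             positivity, ?_⟩
  intro n₀ K hinj N hN hNk
  let v : ℕ → ℕ := fun k => (T^[k] n₀).natAbs
  have hvr : ∀ k, |((T^[k] n₀ : ℤ) : ℝ)| = (v k : ℝ) := by
    intro k
    simp only [v, Nat.cast_natAbs]
    push_cast
    rfl
  have hv : ∀ k < K, v k ≠ 0 := by
    intro k hk h0
    have h1 := hNk k hk
    rw [hvr, h0] at h1
    norm_num at h1
    linarith
  obtain ⟨n₁, hn1, hn2⟩ := exists_nat_pow_near hN (by norm_num : (1 : ℝ) < 2)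
  let g : ℕ → ℕ := fun k => Nat.log 2 (v k)
  have hg : ∀ k < K, n₁ ≤ g k := by
    intro k hk
    have h1 := hNk k hk
    rw [hvr] at h1
    have h2 : ((2 ^ n₁ : ℕ) : ℝ) ≤ (v k : ℝ) := by push_cast; linarith
    have h3 : 2 ^ n₁ ≤ v k := by exact_mod_cast h2
    exact (Nat.le_log_iff_pow_le (by norm_num) (hv k hk)).mpr h3
  have hterm : ∀ n ∈ (Finset.range K).image g,
      ∑ k ∈ (Finset.range K).filter (fun k => g k = n), 1 / |((T^[k] n₀ : ℤ) : ℝ)| ≤
      C * 2 ^ α * q ^ n := by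
    intro n _
    have h1 : ∀ k ∈ (Finset.range K).filter (fun k => g k = n),
        1 / |((T^[k] n₀ : ℤ) : ℝ)| ≤ 1 / 2 ^ n := by
      intro k hk
      obtain ⟨hkK, hk2⟩ := Finset.mem_filter.mp hk
      have h1 : 2 ^ n ≤ v k := by
        rw [← hk2]; exact Nat.pow_log_le_self 2 (hv k (Finset.mem_range.mp hkK))
      rw [hvr]
      apply one_div_le_one_div_of_le (by positivity)
      exact_mod_cast h1
    refine (Finset.sum_le_card_nsmul _ _ _ h1).trans ?_
    rw [nsmul_eq_mul]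
    have hcard : ((((Finset.range K).filter (fun k => g k = n)).card : ℕ) : ℝ) ≤
        C * ((2 : ℝ) ^ (n + 1)) ^ α := by
      refine le_trans ?_ (hb n₀ K hinj ((2 : ℝ) ^ (n + 1)) (one_le_pow₀ (by norm_num)))
      have h3 : ((Finset.range K).filter (fun k => g k = n)).card ≤
          (seg n₀ K ((2 : ℝ) ^ (n + 1))).ncard := by
        rw [← Set.ncard_coe_finset]
        apply Set.ncard_le_ncard _ (seg_finite _ _ _)
        intro k hk
        obtain ⟨hkK, hk2⟩ := Finset.mem_filter.mp hk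
        have h4 : v k < 2 ^ (n + 1) := by
          rw [← hk2]; exact Nat.lt_pow_succ_log_self (by norm_num) _
        refine ⟨Finset.mem_range.mp hkK, ?_⟩
        rw [hvr]
        exact_mod_cast h4.le
      exact_mod_cast h3
    calc ((((Finset.range K).filter (fun k => g k = n)).card : ℕ) : ℝ) * (1 / 2 ^ n)
        ≤ C * ((2 : ℝ) ^ (n + 1)) ^ α * (1 / 2 ^ n) :=
          mul_le_mul_of_nonneg_right hcard (by positivity)
      _ = C * 2 ^ α * q ^ n := by
          have e1 : ((2 : ℝ) ^ (n + 1)) ^ α = 2 ^ α * ((2 : ℝ) ^ α) ^ n := by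
            rw [← Real.rpow_natCast, ← Real.rpow_mul (by norm_num), ← Real.rpow_natCast,
              ← Real.rpow_mul (by norm_num), ← Real.rpow_add (by norm_num)]
            congr 1
            push_cast
            ring
          have e2 : q ^ n = ((2 : ℝ) ^ α) ^ n * (1 / 2 ^ n) := by
            have : -γ' = α - 1 := by rw [hα]; ring
            rw [hq, this, Real.rpow_sub (by norm_num), Real.rpow_one, div_pow]
            ring
          rw [e1, e2]
          ring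
  have hgeo : ∑ n ∈ (Finset.range K).image g, C * 2 ^ α * q ^ n ≤
      C * 2 ^ α * (q ^ n₁ * (1 - q)⁻¹) := by
    rw [← Finset.mul_sum]
    apply mul_le_mul_of_nonneg_left _ (by positivity)
    have hs : Summable (fun n : ℕ => q ^ (n₁ + n)) := by
      simp_rw [pow_add]
      exact (summable_geometric_of_lt_one hq0.le hq1).mul_left _
    have hinj : Set.InjOn (fun n : ℕ => n - n₁) (((Finset.range K).image g : Finset ℕ) : Set ℕ) := by
      intro a ha b hb hab
      obtain ⟨k, hk, rfl⟩ := Finset.mem_image.mp (Finset.mem_coe.mp ha)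
      obtain ⟨l, hl, rfl⟩ := Finset.mem_image.mp (Finset.mem_coe.mp hb)
      have h1 := hg k (Finset.mem_range.mp hk)
      have h2 := hg l (Finset.mem_range.mp hl)
      simp only at hab
      omega
    have h1 : ∑ n ∈ (Finset.range K).image g, q ^ n =
        ∑ n ∈ ((Finset.range K).image g).image (fun n => n - n₁), q ^ (n₁ + n) := by
      have h0 := Finset.sum_image (s := (Finset.range K).image g) (g := fun n => n - n₁)
        (f := fun n => q ^ (n₁ + n)) hinj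
      rw [h0]
      apply Finset.sum_congr rfl
      intro n hn
      obtain ⟨k, hk, rfl⟩ := Finset.mem_image.mp hn
      have := hg k (Finset.mem_range.mp hk)
      congr 1
      omega
    rw [h1]
    refine (hs.sum_le_tsum _ (fun n _ => by positivity)).trans (le_of_eq ?_)
    simp_rw [pow_add]
    rw [tsum_mul_left, tsum_geometric_of_lt_one hq0.le hq1]
  rw [← Finset.sum_fiberwise_of_maps_to (t := (Finset.range K).image g) (g := g)
    (fun k hk => Finset.mem_image_of_mem g hk)]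
  refine (Finset.sum_le_sum hterm).trans (hgeo.trans ?_)
  have h5 : q ^ n₁ ≤ 2 ^ γ' * N ^ (-γ) := by
    have h6 : q ^ n₁ = ((2 : ℝ) ^ n₁) ^ (-γ') := by
      rw [hq, ← Real.rpow_natCast, ← Real.rpow_mul (by norm_num), ← Real.rpow_natCast,
        ← Real.rpow_mul (by norm_num)]
      congr 1
      ring
    have h7 : N / 2 ≤ (2 : ℝ) ^ n₁ := by rw [pow_succ] at hn2; linarith
    have hN0 : 0 < N := by linarith
    calc q ^ n₁ = ((2 : ℝ) ^ n₁) ^ (-γ') := h6
      _ ≤ (N / 2) ^ (-γ') :=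
          Real.rpow_le_rpow_of_nonpos (by linarith) h7 (by linarith)
      _ = 2 ^ γ' * N ^ (-γ') := by
          rw [Real.div_rpow hN0.le (by norm_num), Real.rpow_neg (by norm_num : (0 : ℝ) ≤ 2),
            div_inv_eq_mul]
          ring
      _ ≤ 2 ^ γ' * N ^ (-γ) := by
          apply mul_le_mul_of_nonneg_left _ (by positivity)
          exact Real.rpow_le_rpow_of_exponent_le hN (by linarith)
  have hq2 : 0 < (1 - q)⁻¹ := by
    have : 0 < 1 - q := by linarith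
    positivity
  calc C * 2 ^ α * (q ^ n₁ * (1 - q)⁻¹) ≤ C * 2 ^ α * ((2 ^ γ' * N ^ (-γ)) * (1 - q)⁻¹) := by
        apply mul_le_mul_of_nonneg_left _ (by positivity)
        exact mul_le_mul_of_nonneg_right h5 hq2.le
    _ = C * 2 ^ α * (1 - q)⁻¹ * 2 ^ γ' * N ^ (-γ) := by ring

/-- The logarithmic size formula. -/
theorem log_formula {n₀ : ℤ} (k : ℕ) (h0 : ∀ j < k, T^[j] n₀ ≠ 0) :
    Real.log |((T^[k] n₀ : ℤ) : ℝ)| = Real.log |(n₀ : ℝ)| + (ps n₀ k).card * Real.log 3 -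
      k * Real.log 2 + ∑ j ∈ ps n₀ k, Real.log (1 + 1 / (3 * ((T^[j] n₀ : ℤ) : ℝ))) := by
  induction k with
  | zero => simp [ps]
  | succ k ih =>
    have ih' := ih (fun j hj => h0 j (by omega))
    have hk := h0 k (by omega)
    have hkR : ((T^[k] n₀ : ℤ) : ℝ) ≠ 0 := by exact_mod_cast hk
    rw [Function.iterate_succ_apply']
    have hps : ps n₀ (k + 1) = if (T^[k] n₀) % 2 = 1 then insert k (ps n₀ k) else ps n₀ k := by
      unfold ps
      rw [Finset.range_add_one, Finset.filter_insert]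
    rcases Int.emod_two_eq_zero_or_one (T^[k] n₀) with h | h
    · have h1 : ((2 : ℝ)) * ((T (T^[k] n₀) : ℤ) : ℝ) = ((T^[k] n₀ : ℤ) : ℝ) := by
        exact_mod_cast two_T_even h
      have h2 : |((T (T^[k] n₀) : ℤ) : ℝ)| = |((T^[k] n₀ : ℤ) : ℝ)| / 2 := by
        rw [← h1, abs_mul, abs_two]; ring
      rw [hps, if_neg (by omega), h2, Real.log_div (by rwa [abs_ne_zero]) (by norm_num), ih']
      push_cast
      ring
    · have h1 : ((2 : ℝ)) * ((T (T^[k] n₀) : ℤ) : ℝ) = 3 * ((T^[k] n₀ : ℤ) : ℝ) + 1 := by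
        exact_mod_cast two_T_odd h
      have hfac : (0 : ℝ) < 1 + 1 / (3 * ((T^[k] n₀ : ℤ) : ℝ)) := by
        have h3 : |1 / (3 * ((T^[k] n₀ : ℤ) : ℝ))| ≤ 1 / 3 := by
          rw [abs_div, abs_one, abs_mul]
          have h4 : (1 : ℝ) ≤ |((T^[k] n₀ : ℤ) : ℝ)| := by
            have := Int.one_le_abs hk
            exact_mod_cast this
          have h5 : |(3 : ℝ)| = 3 := by norm_num
          rw [h5]
          apply one_div_le_one_div_of_le (by norm_num)
          linarith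
        have := (abs_le.mp h3).1
        linarith
      have h2 : |((T (T^[k] n₀) : ℤ) : ℝ)| = |((T^[k] n₀ : ℤ) : ℝ)| *
          (3 / 2 * (1 + 1 / (3 * ((T^[k] n₀ : ℤ) : ℝ)))) := by
        have h3 : ((T (T^[k] n₀) : ℤ) : ℝ) = ((T^[k] n₀ : ℤ) : ℝ) *
            (3 / 2 * (1 + 1 / (3 * ((T^[k] n₀ : ℤ) : ℝ)))) := by
          have h4 : ((T (T^[k] n₀) : ℤ) : ℝ) = (3 * ((T^[k] n₀ : ℤ) : ℝ) + 1) / 2 := by linarith
          rw [h4]
          field_simp
        rw [h3, abs_mul]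
        congr 1
        exact abs_of_pos (by positivity)
      have hnot : k ∉ ps n₀ k := by simp [ps]
      rw [hps, if_pos h, h2, Real.log_mul (by rwa [abs_ne_zero]) (by positivity),
        Real.log_mul (by norm_num) hfac.ne', Real.log_div (by norm_num) (by norm_num), ih',
        Finset.card_insert_of_notMem hnot, Finset.sum_insert hnot]
      push_cast
      ring

theorem abs_log_one_add_le {u : ℝ} (hu : |u| ≤ 1 / 3) : |Real.log (1 + u)| ≤ 2 * |u| := by
  have h1 := (abs_le.mp hu).1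
  have h2 := (abs_le.mp hu).2
  have hpos : 0 < 1 + u := by linarith
  rw [abs_le]
  constructor
  · -- lower bound: `log (1 + u) ≥ 1 - 1 / (1 + u) = u / (1 + u)`
    have h3 := Real.one_sub_inv_le_log_of_pos hpos
    have h4 : 1 - (1 + u)⁻¹ = u / (1 + u) := by field_simp; ring
    rw [h4] at h3
    refine le_trans ?_ h3
    rw [le_div_iff₀ hpos]
    rcases le_total 0 u with hu0 | hu0
    · rw [abs_of_nonneg hu0]; nlinarith
    · rw [abs_of_nonpos hu0]; nlinarith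
  · have h3 := Real.log_le_sub_one_of_pos hpos
    have h4 : u ≤ |u| := le_abs_self u
    have h5 : 0 ≤ |u| := abs_nonneg u
    linarith

/-- **Uniform growth formula.** -/
theorem uniform_growth {γ : ℝ} (hγ : γ < 1 - critExp) :
    ∃ C : ℝ, 0 < C ∧ ∀ (n₀ : ℤ) (k : ℕ), Set.InjOn (fun j : ℕ => T^[j] n₀) (Set.Iio k) →
      ∀ N : ℝ, 1 ≤ N → (∀ j < k, N ≤ |((T^[j] n₀ : ℤ) : ℝ)|) →
      |Real.log |((T^[k] n₀ : ℤ) : ℝ)| - Real.log |(n₀ : ℝ)| - (ps n₀ k).card * Real.log 3 +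
        k * Real.log 2| ≤ C * N ^ (-γ) := by
  obtain ⟨C, hC, hb⟩ := seg_recip hγ
  refine ⟨C, hC, ?_⟩
  intro n₀ k hinj N hN hNk
  have hne : ∀ j < k, T^[j] n₀ ≠ 0 := by
    intro j hj h0
    have h1 := hNk j hj
    rw [h0] at h1
    simp at h1
    linarith
  rw [log_formula k hne]
  have e1 : Real.log |(n₀ : ℝ)| + (ps n₀ k).card * Real.log 3 - k * Real.log 2 +
      ∑ j ∈ ps n₀ k, Real.log (1 + 1 / (3 * ((T^[j] n₀ : ℤ) : ℝ))) - Real.log |(n₀ : ℝ)| -
      (ps n₀ k).card * Real.log 3 + k * Real.log 2 =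
      ∑ j ∈ ps n₀ k, Real.log (1 + 1 / (3 * ((T^[j] n₀ : ℤ) : ℝ))) := by ring
  rw [e1]
  refine (Finset.abs_sum_le_sum_abs _ _).trans (le_trans ?_ (hb n₀ k hinj N hN hNk))
  have hsub : ps n₀ k ⊆ Finset.range k := Finset.filter_subset _ _
  refine le_trans (Finset.sum_le_sum (g := fun j => 1 / |((T^[j] n₀ : ℤ) : ℝ)|) ?_)
    (Finset.sum_le_sum_of_subset_of_nonneg hsub (fun j _ _ => by positivity))
  intro j hj
  have hjk : j < k := (mem_ps.mp hj).1
  have h4 : (1 : ℝ) ≤ |((T^[j] n₀ : ℤ) : ℝ)| := hN.trans (hNk j hjk)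
  have h5 : |1 / (3 * ((T^[j] n₀ : ℤ) : ℝ))| = 1 / (3 * |((T^[j] n₀ : ℤ) : ℝ)|) := by
    rw [abs_div, abs_one, abs_mul]
    norm_num
  have h6 : |1 / (3 * ((T^[j] n₀ : ℤ) : ℝ))| ≤ 1 / 3 := by
    rw [h5]
    apply one_div_le_one_div_of_le (by norm_num)
    linarith
  refine (abs_log_one_add_le h6).trans ?_
  rw [h5]
  have h7 : 2 * (1 / (3 * |((T^[j] n₀ : ℤ) : ℝ)|)) = (2 / 3) * (1 / |((T^[j] n₀ : ℤ) : ℝ)|) := by
    field_simp
  rw [h7]
  have h8 : 0 ≤ 1 / |((T^[j] n₀ : ℤ) : ℝ)| := by positivity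
  linarith

end Pool.Agent.Helper67.CZ
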