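import Mathlib

set_option autoImplicit false

/-!
Parity vectors of the accelerated 3x+1 map on the integers.
-/

namespace Pool.Agent.Helper67.CZ

/-- The accelerated 3x+1 map. -/
def T (n : ℤ) : ℤ := if n % 2 = 0 then n / 2 else (3 * n + 1) / 2

/-- The set of times below `m` at which the trajectory of `n` is odd. -/
def ps (n : ℤ) (m : ℕ) : Finset ℕ := (Finset.range m).filter (fun k => (T^[k] n) % 2 = 1)

theorem two_T_even {n : ℤ} (h : n % 2 = 0) : 2 * T n = n := by
  unfold T; rw [if_pos h]; omega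

theorem two_T_odd {n : ℤ} (h : n % 2 = 1) : 2 * T n = 3 * n + 1 := by
  unfold T; rw [if_neg (by omega)]; omega

theorem mem_ps {n : ℤ} {m k : ℕ} : k ∈ ps n m ↔ k < m ∧ (T^[k] n) % 2 = 1 := by
  simp [ps]

theorem ps_dvd (m : ℕ) : ∀ a b : ℤ, ps a m = ps b m → (2 : ℤ) ^ m ∣ a - b := by
  induction m with
  | zero => intro a b _; simp
  | succ m ih =>
    intro a b h
    have h0 : (a % 2 = 1) ↔ (b % 2 = 1) := by
      have h1 : (0 ∈ ps a (m + 1)) ↔ (0 ∈ ps b (m + 1)) := by rw [h]
      simpa [mem_ps] using h1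
    have hT : ps (T a) m = ps (T b) m := by
      ext k
      have h1 : (k + 1 ∈ ps a (m + 1)) ↔ (k + 1 ∈ ps b (m + 1)) := by rw [h]
      simpa [mem_ps, Function.iterate_succ_apply] using h1
    have h2 := ih _ _ hT
    obtain ⟨c, hc⟩ := h2
    rcases Int.emod_two_eq_zero_or_one a with ha | ha
    · have hb : b % 2 = 0 := by
        rcases Int.emod_two_eq_zero_or_one b with hb | hb
        · exact hb
        · rw [← h0] at hb; omega
      have ea := two_T_even ha
      have eb := two_T_even hb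
      refine ⟨c, ?_⟩
      rw [pow_succ]
      linear_combination 2 * hc - ea + eb
    · have hb : b % 2 = 1 := h0.mp ha
      have ea := two_T_odd ha
      have eb := two_T_odd hb
      have h3 : (2 : ℤ) ^ (m + 1) ∣ 3 * (a - b) := by
        refine ⟨c, ?_⟩
        rw [pow_succ]
        linear_combination 2 * hc - ea + eb
      exact (IsCoprime.pow_left (by norm_num : IsCoprime (2 : ℤ) 3)).dvd_of_dvd_mul_left h3

theorem ps_succ (n : ℤ) (m : ℕ) : (ps n (m + 1)).card =
    (ps n m).card + if (T^[m] n) % 2 = 1 then 1 else 0 := by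
  unfold ps
  rw [Finset.range_add_one, Finset.filter_insert]
  split_ifs with h
  · rw [Finset.card_insert_of_notMem (by simp)]
  · simp

/-- Growth bound. -/
theorem growth (n : ℤ) (m : ℕ) : |((T^[m] n : ℤ) : ℝ)| ≤
    3 ^ (ps n m).card * |(n : ℝ)| / 2 ^ m + (3 / 2) ^ (ps n m).card - 1 := by
  induction m with
  | zero => simp [ps]
  | succ m ih =>
    rw [ps_succ, Function.iterate_succ_apply']
    set y := T^[m] n with hy
    rcases Int.emod_two_eq_zero_or_one y with h | h
    · have h1 : ((2 : ℝ)) * ((T y : ℤ) : ℝ) = (y : ℝ) := by exact_mod_cast two_T_even h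
      have h2 : |((T y : ℤ) : ℝ)| = |(y : ℝ)| / 2 := by
        rw [← h1, abs_mul, abs_two]; ring
      rw [if_neg (by omega), add_zero, h2]
      have h3 : (1 : ℝ) ≤ (3 / 2) ^ (ps n m).card := one_le_pow₀ (by norm_num)
      have h4 : 3 ^ (ps n m).card * |(n : ℝ)| / 2 ^ (m + 1) =
          (3 ^ (ps n m).card * |(n : ℝ)| / 2 ^ m) / 2 := by
        rw [pow_succ]; field_simp
      rw [h4]
      linarith
    · have h1 : ((2 : ℝ)) * ((T y : ℤ) : ℝ) = 3 * (y : ℝ) + 1 := by exact_mod_cast two_T_odd h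
      have h2 : |((T y : ℤ) : ℝ)| ≤ (3 * |(y : ℝ)| + 1) / 2 := by
        have h5 : |((T y : ℤ) : ℝ)| = |3 * (y : ℝ) + 1| / 2 := by
          rw [← h1, abs_mul, abs_two]; ring
        rw [h5]
        have h6 : |3 * (y : ℝ) + 1| ≤ 3 * |(y : ℝ)| + 1 := by
          refine (abs_add_le _ _).trans ?_
          rw [abs_mul, abs_one]
          norm_num
        linarith
      rw [if_pos h]
      have h4 : 3 ^ ((ps n m).card + 1) * |(n : ℝ)| / 2 ^ (m + 1) =
          3 / 2 * (3 ^ (ps n m).card * |(n : ℝ)| / 2 ^ m) := by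
        rw [pow_succ, pow_succ]; field_simp
      rw [h4, pow_succ]
      linarith

/-- Chernoff bound for subsets. -/
theorem chernoff {θ : ℝ} (h1 : 1 / 2 ≤ θ) (h2 : θ < 1) (m : ℕ) :
    ((((Finset.range m).powerset.filter (fun S => θ * m ≤ (S.card : ℝ))).card : ℕ) : ℝ) ≤
      Real.exp (m * Real.binEntropy θ) := by
  set l : ℝ := θ / (1 - θ) with hl
  have h3 : 0 < 1 - θ := by linarith
  have h0 : 0 < θ := by linarith
  have hl1 : 1 ≤ l := by rw [hl, le_div_iff₀ h3]; linarith
  have hl0 : 0 < l := by linarith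
  have hsum : ∑ S ∈ (Finset.range m).powerset, l ^ S.card = (l + 1) ^ m := by
    have := Finset.sum_pow_mul_eq_add_pow l 1 (Finset.range m)
    simpa using this
  have hle : ((((Finset.range m).powerset.filter (fun S => θ * m ≤ (S.card : ℝ))).card : ℕ) : ℝ) *
      l ^ (θ * m) ≤ (l + 1) ^ m := by
    rw [← hsum]
    calc ((((Finset.range m).powerset.filter (fun S => θ * m ≤ (S.card : ℝ))).card : ℕ) : ℝ) *
        l ^ (θ * m) = ∑ S ∈ (Finset.range m).powerset.filter (fun S => θ * m ≤ (S.card : ℝ)),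
          l ^ (θ * m) := by rw [Finset.sum_const, nsmul_eq_mul]
      _ ≤ ∑ S ∈ (Finset.range m).powerset.filter (fun S => θ * m ≤ (S.card : ℝ)),
          l ^ S.card := by
          apply Finset.sum_le_sum
          intro S hS
          rw [← Real.rpow_natCast]
          exact Real.rpow_le_rpow_of_exponent_le hl1 (Finset.mem_filter.mp hS).2
      _ ≤ ∑ S ∈ (Finset.range m).powerset, l ^ S.card := by
          apply Finset.sum_le_sum_of_subset_of_nonneg (Finset.filter_subset _ _)
          intro S _ _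
          positivity
  have hpos : 0 < l ^ (θ * m) := by positivity
  rw [← le_div_iff₀ hpos] at hle
  refine hle.trans (le_of_eq ?_)
  have hl2 : l + 1 = (1 - θ)⁻¹ := by rw [hl]; field_simp; ring
  have e1 : l ^ (θ * m) = Real.exp (θ * m * (Real.log θ - Real.log (1 - θ))) := by
    rw [Real.rpow_def_of_pos hl0, hl, Real.log_div h0.ne' h3.ne']
    ring_nf
  have e2 : (l + 1) ^ m = Real.exp (m * (- Real.log (1 - θ))) := by
    rw [hl2, ← Real.log_inv, Real.exp_nat_mul, Real.exp_log (by positivity)]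
  rw [e1, e2, ← Real.exp_sub]
  congr 1
  rw [Real.binEntropy, Real.log_inv, Real.log_inv]
  ring

/-- Number of integers of size at most `2 ^ m` with many odd steps. -/
theorem bad_count {θ : ℝ} (h1 : 1 / 2 ≤ θ) (h2 : θ < 1) (m : ℕ) :
    (({n : ℤ | |n| ≤ 2 ^ m ∧ θ * m ≤ ((ps n m).card : ℝ)}.ncard : ℕ) : ℝ) ≤
      3 * Real.exp (m * Real.binEntropy θ) := by
  classical
  set F := (Finset.range m).powerset.filter (fun S => θ * m ≤ (S.card : ℝ)) with hF
  have hle : {n : ℤ | |n| ≤ 2 ^ m ∧ θ * m ≤ ((ps n m).card : ℝ)}.ncard ≤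
      ((F ×ˢ Finset.range 3 : Finset (Finset ℕ × ℕ)) : Set (Finset ℕ × ℕ)).ncard := by
    refine Set.ncard_le_ncard_of_injOn (fun n => (ps n m, ((n + 2 ^ m) / 2 ^ m).toNat)) ?_ ?_
      (Finset.finite_toSet _)
    · rintro n ⟨hn1, hn2⟩
      rw [abs_le] at hn1
      have hp : (0 : ℤ) < 2 ^ m := by positivity
      simp only [Finset.mem_coe, Finset.mem_product, Finset.mem_range]
      refine ⟨?_, ?_⟩
      · rw [hF, Finset.mem_filter, Finset.mem_powerset]
        exact ⟨Finset.filter_subset _ _, hn2⟩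
      · have h3 : (n + 2 ^ m) / 2 ^ m < 3 := by
          rw [Int.ediv_lt_iff_lt_mul hp]; linarith
        omega
    · rintro a ⟨ha1, _⟩ b ⟨hb1, _⟩ hab
      simp only [Prod.mk.injEq] at hab
      obtain ⟨hab1, hab2⟩ := hab
      rw [abs_le] at ha1 hb1
      have hp : (0 : ℤ) < 2 ^ m := by positivity
      have h3 := ps_dvd m a b hab1
      have h4 : (0 : ℤ) ≤ (a + 2 ^ m) / 2 ^ m := Int.ediv_nonneg (by linarith) hp.le
      have h5 : (0 : ℤ) ≤ (b + 2 ^ m) / 2 ^ m := Int.ediv_nonneg (by linarith) hp.le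
      have h6 : (a + 2 ^ m) / 2 ^ m = (b + 2 ^ m) / 2 ^ m := by omega
      have h7 := Int.emod_add_mul_ediv (a + 2 ^ m) (2 ^ m)
      have h8 := Int.emod_add_mul_ediv (b + 2 ^ m) (2 ^ m)
      have h9 : (a + 2 ^ m) % 2 ^ m = (b + 2 ^ m) % 2 ^ m := by
        apply Int.emod_emod_of_dvd _ (dvd_refl _) |>.symm.trans
        rw [Int.emod_emod_of_dvd _ (dvd_refl _)]
        apply Int.ModEq.symm
        rw [Int.modEq_iff_dvd]
        have : a + 2 ^ m - (b + 2 ^ m) = a - b := by ring
        rw [this]; exact h3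
      rw [h6, h9, h8] at h7
      linarith
  rw [Set.ncard_coe_finset, Finset.card_product, Finset.card_range] at hle
  have h3 := chernoff h1 h2 m
  rw [← hF] at h3
  have h4 : (({n : ℤ | |n| ≤ 2 ^ m ∧ θ * m ≤ ((ps n m).card : ℝ)}.ncard : ℕ) : ℝ) ≤
      ((F.card * 3 : ℕ) : ℝ) := by exact_mod_cast hle
  refine h4.trans ?_
  push_cast
  linarith

end Pool.Agent.Helper67.CZ
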